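import Mathlib

/-! Independent systems of central binomial size over free semigroups. -/

set_option autoImplicit false

namespace Pool.Agent.P.MP_dca9d4_lc.Tr

variable {A B X Y Z : Type*}

/-- The power `y ^ n` of a word. -/
def pw (y : List A) : ℕ → List A
  | 0 => []
  | n + 1 => y ++ pw y n

theorem pw_add (y : List A) (m n : ℕ) : pw y (m + n) = pw y m ++ pw y n := by
  induction m with
  | zero => simp [pw]
  | succ m ih => rw [Nat.succ_add]; simp [pw, ih]

theorem pw_one (y : List A) : pw y 1 = y := by simp [pw]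

theorem pw_pw (y : List A) (m n : ℕ) : pw (pw y m) n = pw y (m * n) := by
  induction n with
  | zero => simp [pw]
  | succ n ih => rw [pw, ih, ← pw_add]; congr 1; ring

theorem flatMap_pw (g : A → List B) (y : List A) (n : ℕ) :
    (pw y n).flatMap g = pw (y.flatMap g) n := by
  induction n with
  | zero => simp [pw]
  | succ n ih => simp [pw, ih]

theorem length_pw (y : List A) (n : ℕ) : (pw y n).length = n * y.length := by
  induction n with
  | zero => simp [pw]
  | succ n ih => simp [pw, ih]; ring

theorem pw_nil (n : ℕ) : pw ([] : List A) n = [] := by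
  induction n with
  | zero => rfl
  | succ n ih => simp [pw, ih]

/-- Every letter is replaced by a block that knows its distance to both ends. -/
def asm (blk : X → ℕ → ℕ → List Z) : List X → ℕ → List Z
  | [], _ => []
  | x :: t, v => blk x t.length v ++ asm blk t (v + 1)

theorem length_asm (blk : X → ℕ → ℕ → List Z) (m b : ℕ)
    (h : ∀ x i j, i + j + 1 = m → (blk x i j).length = b) (l : List X) (v : ℕ)
    (hl : l.length + v = m) : (asm blk l v).length = l.length * b := by
  induction l generalizing v with
  | nil => simp [asm]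
  | cons x t ih =>
    simp only [List.length_cons] at hl
    rw [asm, List.length_append, h x _ _ (by omega), ih _ (by omega), List.length_cons]
    ring

/-- The value of an assembled word: erased letters leave a power of `y`, which is compensated by
the position of the code word inside the blocks of the other letters. -/
theorem asm_val (blk : X → ℕ → ℕ → List Z) (g : Z → List A) (y : List A) (P m : ℕ)
    (val : X → List B) (D : B → List A)
    (h0 : ∀ x i j, i + j + 1 = m → val x = [] → (blk x i j).flatMap g = pw y P)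
    (h1 : ∀ x i j, i + j + 1 = m → val x ≠ [] → pw y (P * j) ++ (blk x i j).flatMap g =
      (val x).flatMap D ++ pw y (P * (j + 1)))
    (l : List X) (v : ℕ) (hl : l.length + v = m) :
    pw y (P * v) ++ (asm blk l v).flatMap g = (l.flatMap val).flatMap D ++ pw y (P * m) := by
  induction l generalizing v with
  | nil => simp [asm, ← hl]
  | cons x t ih =>
    simp only [List.length_cons] at hl
    have ih' := ih (v + 1) (by omega)
    rw [asm, List.flatMap_append, ← List.append_assoc, List.flatMap_cons, List.flatMap_append,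
      List.append_assoc _ _ (pw y (P * m)), ← ih']
    by_cases hx : val x = []
    · rw [h0 x _ _ (by omega) hx, hx, ← pw_add, mul_add, mul_one]
      simp
    · rw [h1 x _ _ (by omega) hx, List.append_assoc]

theorem length_flatMap_const (D : B → List A) (k : ℕ) (h : ∀ c, (D c).length = k) (w : List B) :
    (w.flatMap D).length = w.length * k := by
  induction w with
  | nil => simp
  | cons c w ih => rw [List.flatMap_cons, List.length_append, ih, h, List.length_cons]; ring

theorem flatMap_inj (D : B → List A) (k : ℕ) (h : ∀ c, (D c).length = k)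
    (hD : Function.Injective D) (w w' : List B) (hw : w.length = w'.length)
    (e : w.flatMap D = w'.flatMap D) : w = w' := by
  induction w generalizing w' with
  | nil => exact (List.length_eq_zero_iff.1 hw.symm).symm
  | cons c w ih => cases w' with
    | nil => simp at hw
    | cons c' w' =>
      rw [List.flatMap_cons, List.flatMap_cons] at e
      have := List.append_inj e (by rw [h, h])
      rw [hD this.1, ih w' (by simpa using hw) this.2]

theorem flatMap_const (p : List A) (w : List B) : w.flatMap (fun _ => p) = pw p w.length := by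
  induction w with
  | nil => rfl
  | cons c w ih => rw [List.flatMap_cons, ih, List.length_cons, pw]

/-- The value of a move: its letter if the literal is active, nothing otherwise. -/
def mv (act : Y → Bool) (x : Y × Fin 2) : List (Fin 2) := if act x.1 then [x.2] else []

/-- The block of a move when a new literal `z` is added. -/
def blkS (one z : Y) (x : Y × Fin 2) (i j : ℕ) : List (Y × Fin 2) :=
  pw [(x.1, 0), (x.1, 1)] (2 * i) ++
    (if x.2 = 0 then [(x.1, 0), (z, 0), (x.1, 1), (z, 1), (one, 0), (one, 1)]
      else [(one, 0), (one, 1), (x.1, 0), (z, 0), (x.1, 1), (z, 1)]) ++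
    pw [(x.1, 0), (x.1, 1)] (2 * (j + 1))

/-- The code words when the new literal is active. -/
def dS (m : ℕ) (c : Fin 2) : List (Fin 2) :=
  pw [0, 1] (2 * (m - 1)) ++ if c = 0 then [0, 0, 1, 1, 0, 1] else [0, 1, 0, 0, 1, 1]

theorem blkS_on (act : Y → Bool) (one z : Y) (h1 : act one = true) (hz : act z = true)
    (l : List (Y × Fin 2)) : (asm (blkS one z) l 0).flatMap (mv act) =
      (l.flatMap (mv act)).flatMap (dS l.length) ++ pw [0, 1] (2 * l.length) := by
  refine asm_val _ _ [0, 1] 2 l.length (mv act) _ ?_ ?_ l 0 rfl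
  · rintro ⟨F, c⟩ i j - hx
    have hF : act F = false := by simpa [mv] using hx
    by_cases hc : c = 0 <;> simp [blkS, flatMap_pw, mv, hF, h1, hz, hc, pw_nil, pw]
  · rintro ⟨F, c⟩ i j hm hx
    have hF : act F = true := by simpa [mv] using hx
    have e : 2 * (l.length - 1) = 2 * j + 2 * i := by omega
    by_cases hc : c = 0 <;> simp [blkS, flatMap_pw, mv, hF, h1, hz, hc, dS, e, pw_add]

theorem blkS_off (act : Y → Bool) (one z : Y) (h1 : act one = true) (hz : act z = false)
    (l : List (Y × Fin 2)) : (asm (blkS one z) l 0).flatMap (mv act) =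
      (l.flatMap (mv act)).flatMap (fun _ => pw [0, 1] (2 * l.length + 1)) ++
        pw [0, 1] (1 * l.length) := by
  refine asm_val _ _ [0, 1] 1 l.length (mv act) _ ?_ ?_ l 0 rfl
  · rintro ⟨F, c⟩ i j - hx
    have hF : act F = false := by simpa [mv] using hx
    by_cases hc : c = 0 <;> simp [blkS, flatMap_pw, mv, hF, h1, hz, hc, pw_nil, pw]
  · rintro ⟨F, c⟩ i j hm hx
    have hF : act F = true := by simpa [mv] using hx
    have e : (blkS one z (F, c) i j).flatMap (mv act) =
        pw [0, 1] (2 * i) ++ pw [0, 1] 2 ++ pw [0, 1] (2 * (j + 1)) := by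
      by_cases hc : c = 0 <;> simp [blkS, flatMap_pw, mv, hF, h1, hz, hc, pw]
    have e' : mv act (F, c) = [c] := by simp [mv, hF]
    rw [e, e', List.flatMap_singleton, ← pw_add, ← pw_add, ← pw_add, ← pw_add]
    congr 1
    omega

/-- Equations that fail exactly when all the literals of a list are active. -/
theorem gad (one : Y) (d : ℕ) : ∃ m, 1 ≤ m ∧ ∀ L : List Y, L.length = d →
    ∃ α β : List (Y × Fin 2), α.length = m ∧ β.length = m ∧ ∀ act : Y → Bool, act one = true →
      (α.flatMap (mv act)).length = (β.flatMap (mv act)).length ∧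
      (α.flatMap (mv act) = β.flatMap (mv act) ↔ ∃ z ∈ L, act z = false) := by
  induction d with
  | zero =>
    refine ⟨1, le_rfl, fun L hL => ⟨[(one, 0)], [(one, 1)], rfl, rfl, fun act h => ?_⟩⟩
    rw [List.length_eq_zero_iff.1 hL]
    simp [mv, h]
  | succ d ih =>
    obtain ⟨m, hm, ih⟩ := ih
    refine ⟨m * (4 * m + 6), by nlinarith, fun L hL => ?_⟩
    obtain ⟨z, L, rfl⟩ := List.exists_cons_of_length_eq_add_one hL
    obtain ⟨α, β, ha, hb, h⟩ := ih L (by simpa using hL)
    have hl : ∀ l : List (Y × Fin 2), l.length = m →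
        (asm (blkS one z) l 0).length = m * (4 * m + 6) := fun l e => by
      rw [length_asm _ m (4 * m + 6) _ l 0 e, e]
      rintro x i j rfl
      simp only [blkS, List.length_append, length_pw]
      split_ifs <;> simp <;> ring
    refine ⟨_, _, hl α ha, hl β hb, fun act h1 => ?_⟩
    obtain ⟨h2, h3⟩ := h act h1
    cases hz : act z
    · rw [blkS_off act one z h1 hz, blkS_off act one z h1 hz, flatMap_const, flatMap_const, h2,
        ha, hb]
      simp [hz]
    · have hd : ∀ c, (dS m c).length = 2 * (m - 1) * 2 + 6 := fun c => by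
        simp only [dS, List.length_append, length_pw]
        split_ifs <;> rfl
      have hi : Function.Injective (dS m) := fun c c' e => by
        rw [dS, dS, List.append_cancel_left_eq] at e
        revert c c'
        decide
      rw [blkS_on act one z h1 hz, blkS_on act one z h1 hz, ha, hb, List.length_append,
        List.length_append, length_flatMap_const _ _ hd, length_flatMap_const _ _ hd, h2,
        List.append_cancel_right_eq]
      refine ⟨rfl, ⟨fun e => ?_, fun e => ?_⟩⟩
      · obtain ⟨w, hw, e'⟩ := h3.1 (flatMap_inj _ _ hd hi _ _ h2 e)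
        exact ⟨w, List.mem_cons_of_mem _ hw, e'⟩
      · rw [h3.2 (by simpa [hz] using e)]

/-- The word standing for a literal: an unknown, or the long constant. -/
def lit (R : ℕ) : Option Y → List (Y ⊕ Fin 2)
  | none => pw [.inr 0, .inr 0, .inr 1] R ++ [.inr 0]
  | some j => [.inl j]

/-- The nonerasing values of the unknowns. -/
def gv (R : ℕ) (act : Option Y → Bool) : Y ⊕ Fin 2 → List (Fin 2)
  | .inl j => if act (some j) then pw [0, 0, 1] R ++ [0] else [0]
  | .inr c => [c]

theorem lit_val (R : ℕ) (act : Option Y → Bool) (h1 : act none = true) (F : Option Y) :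
    (lit R F).flatMap (gv R act) = if act F then pw [0, 0, 1] R ++ [0] else [0] := by
  cases F <;> simp [lit, gv, flatMap_pw, h1]

/-- The block of a move in the last recoding. -/
def blkF (R : ℕ) (x : Option Y × Fin 2) (i j : ℕ) : List (Y ⊕ Fin 2) :=
  pw (lit R x.1 ++ [.inr 0, .inr 1]) i ++
    (if x.2 = 0 then .inr 0 :: lit R x.1 ++ [.inr 1, .inr 0, .inr 0, .inr 1]
      else .inr 0 :: .inr 0 :: .inr 1 :: .inr 0 :: lit R x.1 ++ [.inr 1]) ++
    pw (lit R x.1 ++ [.inr 0, .inr 1]) (j + 1)

/-- The code words of the last recoding. -/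
def dF (m : ℕ) (c : Fin 2) : List (Fin 2) :=
  pw [0, 0, 1] ((m + 2) * (m - 1)) ++
    if c = 0 then 0 :: pw [0, 0, 1] (m + 1) ++ [0, 1, 0, 0, 1]
    else 0 :: 0 :: 1 :: 0 :: pw [0, 0, 1] (m + 1) ++ [0, 1]

theorem blkF_val (act : Option Y → Bool) (h1 : act none = true) (l : List (Option Y × Fin 2)) :
    (asm (blkF (l.length + 1)) l 0).flatMap (gv (l.length + 1) act) =
      (l.flatMap (mv act)).flatMap (dF l.length) ++ pw [0, 0, 1] ((l.length + 2) * l.length) := by
  refine asm_val _ _ [0, 0, 1] (l.length + 2) l.length (mv act) _ ?_ ?_ l 0 rfl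
  · rintro ⟨F, c⟩ i j hm hx
    have hF : act F = false := by simpa [mv] using hx
    have e : l.length + 2 = i + (2 + (j + 1)) := by omega
    rw [e, pw_add, pw_add]
    by_cases hc : c = 0 <;> simp [blkF, flatMap_pw, lit_val _ act h1, hF, hc, gv, pw]
  · rintro ⟨F, c⟩ i j hm hx
    have hF : act F = true := by simpa [mv] using hx
    have e : (l.length + 2) * (l.length - 1) = (l.length + 2) * j + (l.length + 2) * i := by
      rw [← mul_add]
      congr 1
      omega
    have dF_eq : (mv act (F, c)).flatMap (dF l.length) = pw [0, 0, 1] ((l.length + 2) *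
        (l.length - 1)) ++ if c = 0 then 0 :: pw [0, 0, 1] (l.length + 1) ++ [0, 1, 0, 0, 1]
        else 0 :: 0 :: 1 :: 0 :: pw [0, 0, 1] (l.length + 1) ++ [0, 1] := by
      simp [mv, hF, dF]
    have e' : pw [0, 0, 1] (l.length + 1) ++ [0, 0, 1] =
        pw ([0, 0, 1] : List (Fin 2)) (l.length + 2) := by
      rw [pw_add _ (l.length + 1) 1, pw_one]
    rw [dF_eq, e, pw_add]
    by_cases hc : c = 0 <;>
      simp [blkF, flatMap_pw, lit_val _ act h1, hF, hc, gv, e', pw_pw]

/-- A family of equations and nonerasing morphisms, the `i`-th equation failing exactly under the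
`i`-th morphism, gives an independent system. -/
theorem indep_of {I : Type*} {n : ℕ} (e : Z ≃ Fin n) (J : Finset I)
    (α β : I → List Z) (g : I → Z → List A) (hg : ∀ i z, g i z ≠ [])
    (h0 : ∀ i ∈ J, α i ≠ [] ∧ β i ≠ [])
    (h : ∀ i ∈ J, ∀ j ∈ J, (α i).flatMap (g j) = (β i).flatMap (g j) ↔ i ≠ j) :
    ∃ S : Finset (List (Fin n) × List (Fin n)), (∀ p ∈ S, p.1 ≠ [] ∧ p.2 ≠ []) ∧
      S.card = J.card ∧ ∀ T, T ⊂ S → ∃ f : Fin n → List A, (∀ i, f i ≠ []) ∧
        (∀ p ∈ T, p.1.flatMap f = p.2.flatMap f) ∧ ∃ p ∈ S, p.1.flatMap f ≠ p.2.flatMap f := by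
  classical
  let E : I → List (Fin n) × List (Fin n) := fun i => ((α i).map e, (β i).map e)
  let f : I → Fin n → List A := fun j k => g j (e.symm k)
  have hE : ∀ i ∈ J, ∀ j ∈ J, (E i).1.flatMap (f j) = (E i).2.flatMap (f j) ↔ i ≠ j := by
    intro i hi j hj
    simpa [E, f, List.flatMap_map] using h i hi j hj
  refine ⟨J.image E, fun p hp => ?_, Finset.card_image_of_injOn fun i hi j hj hij => ?_,
    fun T hT => ?_⟩
  · obtain ⟨i, hi, rfl⟩ := Finset.mem_image.1 hp
    simpa [E] using h0 i hi
  · by_contra hne
    have := (hE i hi j hj).2 hne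
    rw [hij] at this
    exact (hE j hj j hj).1 this rfl
  · obtain ⟨x, hx, hxT⟩ := Finset.exists_of_ssubset hT
    obtain ⟨i, hi, rfl⟩ := Finset.mem_image.1 hx
    refine ⟨f i, fun k => hg _ _, fun y hy => ?_, E i, hx, fun h' => (hE i hi i hi).1 h' rfl⟩
    obtain ⟨k, hk, rfl⟩ := Finset.mem_image.1 (hT.1 hy)
    refine (hE k hk i hi).2 ?_
    rintro rfl
    exact hxT hy

theorem semi (A : Type*) [Nontrivial A] (N d : ℕ) :
    ∃ S : Finset (List (Fin (N + 2)) × List (Fin (N + 2))), (∀ p ∈ S, p.1 ≠ [] ∧ p.2 ≠ []) ∧
      S.card = N.choose d ∧ ∀ T, T ⊂ S → ∃ f : Fin (N + 2) → List A, (∀ i, f i ≠ []) ∧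
        (∀ p ∈ T, p.1.flatMap f = p.2.flatMap f) ∧ ∃ p ∈ S, p.1.flatMap f ≠ p.2.flatMap f := by
  obtain ⟨m, hm, h⟩ := gad (none : Option (Fin N)) d
  have h' : ∀ s : Finset (Fin N), ∃ α β : List (Option (Fin N) × Fin 2), s.card = d →
      α.length = m ∧ β.length = m ∧ ∀ act : Option (Fin N) → Bool, act none = true →
      (α.flatMap (mv act)).length = (β.flatMap (mv act)).length ∧
      (α.flatMap (mv act) = β.flatMap (mv act) ↔ ∃ z ∈ s, act (some z) = false) := fun s => by
    by_cases hs : s.card = d
    · obtain ⟨α, β, ha, hb, e⟩ := h (s.toList.map some) (by simpa using hs)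
      exact ⟨α, β, fun _ => ⟨ha, hb, fun act h1 => by simpa using e act h1⟩⟩
    · exact ⟨[], [], fun e => (hs e).elim⟩
  choose α β h' using h'
  let act : Finset (Fin N) → Option (Fin N) → Bool := fun r F => F.all (· ∈ r)
  have hd : ∀ c, (dF m c).length = (m + 2) * (m - 1) * 3 + ((m + 1) * 3 + 6) := fun c => by
    simp only [dF, List.length_append, length_pw]
    split_ifs <;> simp [length_pw]
  have hi : Function.Injective (dF m) := fun c c' e => by
    rw [dF, dF, List.append_cancel_left_eq] at e
    fin_cases c <;> fin_cases c' <;> simp [pw] at e ⊢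
  have hv : ∀ r (l : List (Option (Fin N) × Fin 2)), l.length = m →
      (asm (blkF (m + 1)) l 0).flatMap (gv (m + 1) (act r)) =
      (l.flatMap (mv (act r))).flatMap (dF m) ++ pw [0, 0, 1] ((m + 2) * m) := by
    rintro r l rfl
    exact blkF_val _ rfl l
  have hn : ∀ l : List (Option (Fin N) × Fin 2), l.length = m →
      asm (blkF (m + 1)) l 0 ≠ [] := fun l hl e => by
    have := congrArg List.length (hv ∅ l hl)
    rw [e, List.length_append, length_pw] at this
    have h3 : 0 < (m + 2) * m * ([0, 0, 1] : List (Fin 2)).length := by simp; omega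
    simp only [List.flatMap_nil, List.length_nil] at this
    omega
  obtain ⟨a, b, hab⟩ := exists_pair_ne A
  have hφ : Function.Injective ![a, b] := by
    intro i j
    fin_cases i <;> fin_cases j <;> simp [hab, hab.symm]
  have := indep_of finSumFinEquiv (Finset.powersetCard d (Finset.univ : Finset (Fin N)))
    (fun s => asm (blkF (m + 1)) (α s) 0) (fun s => asm (blkF (m + 1)) (β s) 0)
    (fun r z => (gv (m + 1) (act r) z).map ![a, b]) ?_ ?_ ?_
  · simpa using this
  · rintro r (j | c)
    · simp only [gv]
      split_ifs <;> simp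
    · simp [gv]
  · intro s hs
    obtain ⟨ha, hb, -⟩ := h' s (Finset.mem_powersetCard.1 hs).2
    exact ⟨hn _ ha, hn _ hb⟩
  · intro s hs r hr
    have hs := (Finset.mem_powersetCard.1 hs).2
    have hr := (Finset.mem_powersetCard.1 hr).2
    obtain ⟨ha, hb, e⟩ := h' s hs
    obtain ⟨e1, e2⟩ := e (act r) rfl
    rw [← List.map_flatMap, ← List.map_flatMap, (List.map_injective_iff.2 hφ).eq_iff, hv r _ ha,
      hv r _ hb, List.append_cancel_right_eq]
    have e3 : (∃ z ∈ s, act r (some z) = false) ↔ s ≠ r := by
      constructor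
      · rintro ⟨z, hz, e⟩ rfl
        simp [act, hz] at e
      · intro hne
        by_contra hc
        refine hne (Finset.eq_of_subset_of_card_le (fun z hz => ?_) (by rw [hs, hr]))
        by_contra hz'
        exact hc ⟨z, hz, by simp [act, hz']⟩
    rw [← e3, ← e2]
    exact ⟨flatMap_inj _ _ hd hi _ _ e1, fun e => by rw [e]⟩

end Pool.Agent.P.MP_dca9d4_lc.Tr
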