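import Pool.Agent.P.MP_dca9d4_lc.Tr.Semi

/-! From free monoids to free semigroups. -/

set_option autoImplicit false

namespace Pool.Agent.P.MP_dca9d4_lc.Tr

variable {A X : Type*}

/-- The block replacing an occurrence of an unknown (or of the padding symbol `none`). -/
def blkT : Option X → ℕ → ℕ → List (Option (X ⊕ X))
  | none, i, j => pw [none] (i + j + 1)
  | some x, i, j => pw [some (.inl x)] i ++ [some (.inr x)] ++ pw [some (.inl x)] j

/-- The code word of a letter. -/
def dT (a : A) (m : ℕ) (c : A) : List A := pw [a] (m * (m - 1)) ++ [c]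

/-- The nonerasing morphism attached to an arbitrary morphism `f`. -/
def gT (a : A) (m : ℕ) (f : X → List A) : Option (X ⊕ X) → List A
  | none => [a]
  | some (.inl x) => match f x with
    | [] => [a]
    | _ :: _ => pw [a] m
  | some (.inr x) => match f x with
    | [] => [a]
    | c :: w => c :: w.flatMap (dT a m) ++ pw [a] m

/-- The word `l` padded to length `m`. -/
def padT (m : ℕ) (l : List X) : List (Option X) :=
  l.map some ++ List.replicate (m - l.length) none

theorem blkT_val (a : A) (m : ℕ) (f : X → List A) (l : List X) (hl : l.length ≤ m) :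
    (asm blkT (padT m l) 0).flatMap (gT a m f) =
      (l.flatMap f).flatMap (dT a m) ++ pw [a] (m * m) := by
  have e : (padT m l).flatMap (fun x => x.elim [] f) = l.flatMap f := by
    simp [padT, List.flatMap_map]
  rw [← e]
  refine asm_val _ _ [a] m m _ _ ?_ ?_ _ 0 (by simp [padT]; omega)
  · rintro (_ | x) i j rfl hx
    · simp [blkT, flatMap_pw, gT]
    · have hx : f x = [] := hx
      rw [add_right_comm, pw_add, pw_add]
      simp [blkT, flatMap_pw, gT, hx, pw]
  · rintro (_ | x) i j hm hx
    · exact (hx rfl).elim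
    · obtain ⟨c, w, hx⟩ := List.exists_cons_of_ne_nil (show f x ≠ [] from hx)
      have e1 : m * (m - 1) = m * j + m * i := by
        rw [← mul_add]
        congr 1
        omega
      have e2 : m * (j + 1) = m + m * j := by ring
      have e3 : dT a m c = pw [a] (m * j) ++ (pw [a] (m * i) ++ [c]) := by
        rw [dT, e1, pw_add, List.append_assoc]
      rw [e2, pw_add]
      simp [blkT, flatMap_pw, gT, hx, pw_pw, e3]

theorem transfer (A : Type*) [Nonempty A] (n : ℕ) (S : Finset (List (Fin n) × List (Fin n)))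
    (h : ∀ T, T ⊂ S → ∃ f : Fin n → List A,
      (∀ p ∈ T, p.1.flatMap f = p.2.flatMap f) ∧ ∃ p ∈ S, p.1.flatMap f ≠ p.2.flatMap f) :
    ∃ S' : Finset (List (Fin (2 * n + 1)) × List (Fin (2 * n + 1))),
      (∀ p ∈ S', p.1 ≠ [] ∧ p.2 ≠ []) ∧ S'.card = S.card ∧
      ∀ T, T ⊂ S' → ∃ f : Fin (2 * n + 1) → List A, (∀ i, f i ≠ []) ∧
        (∀ p ∈ T, p.1.flatMap f = p.2.flatMap f) ∧ ∃ p ∈ S', p.1.flatMap f ≠ p.2.flatMap f := by
  obtain ⟨a⟩ := ‹Nonempty A›
  have h' : ∀ q, ∃ f : Fin n → List A, q ∈ S → ∀ p ∈ S, p.1.flatMap f = p.2.flatMap f ↔ p ≠ q := by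
    intro q
    by_cases hq : q ∈ S
    · obtain ⟨f, h1, p', hp', h2⟩ := h _ (Finset.erase_ssubset hq)
      refine ⟨f, fun _ p hp => ⟨?_, fun e => h1 p (Finset.mem_erase.2 ⟨e, hp⟩)⟩⟩
      rintro e rfl
      by_cases e' : p' = p
      · exact h2 (e' ▸ e)
      · exact h2 (h1 p' (Finset.mem_erase.2 ⟨e', hp'⟩))
    · exact ⟨fun _ => [], fun e => (hq e).elim⟩
  choose f hf using h'
  obtain ⟨m, hm0, hm⟩ : ∃ m, 1 ≤ m ∧ ∀ p ∈ S, p.1.length ≤ m ∧ p.2.length ≤ m := by
    refine ⟨S.sup (fun p => p.1.length + p.2.length) + 1, by omega, fun p hp => ?_⟩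
    have := Finset.le_sup (f := fun p : List (Fin n) × List (Fin n) =>
      p.1.length + p.2.length) hp
    constructor <;> omega
  have hp : pw [a] m ≠ [] := by
    rw [← List.length_pos_iff, length_pw]
    simp only [List.length_singleton]
    omega
  have hn : ∀ l : List (Fin n), l.length ≤ m → asm blkT (padT m l) 0 ≠ [] := fun l hl e => by
    have := congrArg List.length (blkT_val a m (fun _ => []) l hl)
    rw [e, List.length_append, length_pw] at this
    have h3 : 0 < m * m * [a].length := by simp; omega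
    simp only [List.flatMap_nil, List.length_nil] at this
    omega
  have hd : ∀ c, (dT a m c).length = m * (m - 1) + 1 := fun c => by simp [dT, length_pw]
  have hi : Function.Injective (dT a m) := fun c c' e => by simpa [dT] using e
  refine indep_of (Fintype.equivFinOfCardEq (by simp; ring)) S
    (fun p => asm blkT (padT m p.1) 0) (fun p => asm blkT (padT m p.2) 0)
    (fun q => gT a m (f q)) ?_ (fun p hp => ⟨hn _ (hm p hp).1, hn _ (hm p hp).2⟩) ?_
  · rintro q (_ | x | x) <;> simp only [gT]
    · simp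
    · split <;> simp [hp]
    · split <;> simp
  · intro p hp q hq
    rw [blkT_val a m _ _ (hm p hp).1, blkT_val a m _ _ (hm p hp).2, List.append_cancel_right_eq,
      ← hf q hq p hp]
    refine ⟨fun e => flatMap_inj _ _ hd hi _ _ ?_ e, fun e => by rw [e]⟩
    have := congrArg List.length e
    rw [length_flatMap_const _ _ hd, length_flatMap_const _ _ hd] at this
    exact Nat.eq_of_mul_eq_mul_right (by omega) this

end Pool.Agent.P.MP_dca9d4_lc.Tr
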